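import Pool.Agent.H671R2.HoleHard
import Pool.Agent.H671R2.HoleNP

/-!
# Two vertices on a common hole of a perfect graph

The problem of deciding, given a perfect graph `G` and two distinct vertices `u`, `v`, whether `u`
and `v` lie on a common hole of `G`, is `NP`-hard, already for bipartite graphs, and it is solvable in polynomial
time if and only if `P = NP`.

The reduction is from satisfiability.  Two parallel chains of variable gadgets joined crosswise
(the choices in the two chains are forced to be opposite to each other), followed by a chain of
clause gadgets whose literal vertices are joined to the appropriate vertices of the chains; all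
the edges respect a 2-colouring.
-/

namespace Pool.Agent.Results.MP_08b96b_lc.CommonHoleNPHard

open Pool.Agent.NPC Pool.Agent.H671R2.Hole

/-- **The common hole problem for perfect graphs.**
Every language in `NP` is reducible, by a polynomial-time computable function, to instances
`(G, u, v)` of the common hole problem in which `G` is bipartite (hence perfect) and `u ≠ v`;
and there is a polynomial-time algorithm which decides, for every perfect graph `G` and every
two distinct vertices `u`, `v` of `G`, whether `u` and `v` lie on a common hole, if and only if
`P = NP`. -/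
theorem result :
    (∀ L : Set (List Bool), InNP L → ∃ f : List Bool → List Bool, PolyTime f ∧
      ∀ w, ∃ (n : ℕ) (G : SimpleGraph (Fin n)) (u v : Fin n), f w = input G u v ∧ u ≠ v ∧
        G.Colorable 2 ∧ Perfect G ∧ (w ∈ L ↔ OnCommonHole G u v)) ∧
    (PolyTimeSolvable (fun _ G => Perfect G) ↔ PEqNP) := by
  refine ⟨hard, ?_, ?_⟩
  · rintro ⟨A, hA, hA'⟩ L hL
    obtain ⟨f, hf, hfL⟩ := hard L hL
    refine ⟨fun w => A (f w), Pool.Agent.H642R2.TMSim.polyTime_comp hA hf, fun w => ?_⟩
    obtain ⟨n, G, u, v, h1, h2, _, h3, h4⟩ := hfL w
    change w ∈ L ↔ A (f w) = [true]
    rw [h4, h1, hA' n G u v h3 h2]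
  · intro h
    obtain ⟨A, hA, hA'⟩ := NPm.solvable_of h
    exact ⟨A, hA, fun n G u v _ huv => hA' n G u v trivial huv⟩

end Pool.Agent.Results.MP_08b96b_lc.CommonHoleNPHard
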